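import Pool.Agent.Y139.SM.Fin2

/-!
Tensor powers of the cohomology: every bound for a polynomial on `[-N, N]` gives a bound for the sizes of the
`L`-functions of the tensor powers; arithmetic progressions of exponents.
-/

set_option autoImplicit false

namespace Pool.Agent.V1213.TP

open Complex Filter Topology ComplexConjugate NumberField IsDedekindDomain Asymptotics
  Pool.Agent.W401.Cheb Pool.Agent.W540.BE Pool.Agent.W353.L1 Polynomial
open Pool.Agent.H341R2 (lam lam_tendsto)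
open Pool.Agent.W353.PV (tF)
open Pool.Agent.W353.EF (LFun)
open Pool.Agent.W353.EH (edgePoint size HasOrder)
open Pool.Agent.W353.AT (IsArtin exists_common)
open Pool.Agent.Y139.SM

section
variable {K : Type} [Field K] [NumberField K]

/-- a bound for a polynomial gives a bound for the sizes -/
theorem core {T : HeightOneSpectrum (𝓞 K) → ℝ} {s : ℝ} (hs : 0 ≤ s)
    (hT : ∀ v, |T v| ≤ s) (σ : HeightOneSpectrum (𝓞 K) → GK K) {n : ℕ}
    (χ : Representation ℂ (GK K) (Fin n → ℂ)) (hχ : IsArtin χ) (S : Finset ℕ) (e : ℕ → ℕ) (c : ℕ → ℝ)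
    (x : ℕ → ℝ → ℝ) (hx : ∀ j ∈ S, Tendsto (fun ε : ℝ =>
      (EP (nm K) ε fun v => T v ^ e j * RR χ 0 σ v) / lam ε - x j ε) (𝓝[>] 0) (𝓝 0))
    {b : ℝ} (hb0 : 0 ≤ b) (hb : ∀ t : ℝ, |t| ≤ s → n * |∑ j ∈ S, c j * t ^ e j| ≤ b)
    {η : ℝ} (hη : 0 < η) : ∀ᶠ ε : ℝ in 𝓝[>] 0, |∑ j ∈ S, c j * x j ε| ≤ b + η := by
  classical
  obtain ⟨U, hUn, hU, hx1⟩ := exists_common (κ := Unit) (n := fun _ => n)
    (fun _ => χ) fun _ => hχ
  have hx1 : ∀ u ∈ U, χ u = 1 := hx1 ()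
  have hfin : Finite (GK K ⧸ U) := Subgroup.quotient_finite_of_isOpen U hU
  have hpt : ∀ v, |∑ j ∈ S, c j * (T v ^ e j * RR χ 0 σ v)| ≤ b := by
    intro v
    have h1 : ∑ j ∈ S, c j * (T v ^ e j * RR χ 0 σ v) =
        (∑ j ∈ S, c j * T v ^ e j) * RR χ 0 σ v := by
      rw [Finset.sum_mul]
      refine Finset.sum_congr rfl fun r _ => ?_
      ring
    rw [h1, abs_mul, mul_comm]
    refine le_trans ?_ (hb (T v) (hT v))
    exact mul_le_mul_of_nonneg_right (abs_RR_le U χ hx1 _ _ _) (abs_nonneg _)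
  have hbd : ∀ r v, |T v ^ r * RR χ 0 σ v| ≤ s ^ r * n := by
    intro r v
    rw [abs_mul, abs_pow]
    exact mul_le_mul (pow_le_pow_left₀ (abs_nonneg _) (hT v) _)
      (abs_RR_le U χ hx1 _ _ _) (abs_nonneg _) (by positivity)
  have h1 : Tendsto (fun ε : ℝ => ∑ j ∈ S, c j * ((EP (nm K) ε fun v =>
      T v ^ e j * RR χ 0 σ v) / lam ε - x j ε)) (𝓝[>] 0) (𝓝 0) := by
    have h2 := tendsto_finsetSum (f := fun j ε => c j * ((EP (nm K) ε fun v =>
      T v ^ e j * RR χ 0 σ v) / lam ε - x j ε)) (a := fun j => c j * 0) S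
      fun r hr => (hx r hr).const_mul (c r)
    simpa using h2
  have hA : Tendsto (fun ε : ℝ => b * ((EP (nm K) ε fun _ => 1) / lam ε)) (𝓝[>] 0)
      (𝓝 (b * 1)) := (EP_one K).const_mul _
  rw [mul_one] at hA
  filter_upwards [(Metric.tendsto_nhds.1 h1) (η / 2) (by positivity),
    (Metric.tendsto_nhds.1 hA) (η / 2) (by positivity), lam_tendsto.eventually_gt_atTop 0,
    self_mem_nhdsWithin] with ε h2 hA' h3 h4
  have hε : (0 : ℝ) < ε := h4
  rw [Real.dist_eq, sub_zero] at h2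
  rw [Real.dist_eq] at hA'
  have h5 : |EP (nm K) ε fun v => ∑ j ∈ S, c j * (T v ^ e j * RR χ 0 σ v)| ≤
      b * EP (nm K) ε fun _ => 1 := by
    rw [← EP_const_mul]
    refine EP_abs_le (B := b) (fun v => ?_) (fun v => ?_) hε
    · rw [mul_one, abs_of_nonneg (by positivity)]
    · rw [mul_one]
      exact hpt v
  have h6 : (EP (nm K) ε fun v => ∑ j ∈ S, c j * (T v ^ e j * RR χ 0 σ v)) =
      ∑ j ∈ S, c j * EP (nm K) ε fun v => T v ^ e j * RR χ 0 σ v := by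
    rw [EP_sum normSys hε S (fun r v => c r * (T v ^ e r * RR χ 0 σ v))
      (fun r => |c r| * (s ^ e r * n)) (by
        intro k _ v
        rw [abs_mul]
        exact mul_le_mul_of_nonneg_left (hbd _ v) (abs_nonneg _))]
    exact Finset.sum_congr rfl fun k _ => EP_const_mul _ _
  have h7 : ∑ j ∈ S, c j * ((EP (nm K) ε fun v => T v ^ e j * RR χ 0 σ v) / lam ε -
      x j ε) = (∑ j ∈ S, c j * EP (nm K) ε fun v => T v ^ e j * RR χ 0 σ v) / lam ε -
        ∑ j ∈ S, c j * x j ε := by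
    rw [Finset.sum_div, ← Finset.sum_sub_distrib]
    refine Finset.sum_congr rfl fun k _ => ?_
    ring
  rw [h7, ← h6] at h2
  have h8 : |(EP (nm K) ε fun v => ∑ j ∈ S, c j * (T v ^ e j * RR χ 0 σ v)) / lam ε| ≤
      b * ((EP (nm K) ε fun _ => 1) / lam ε) := by
    rw [abs_div, abs_of_pos h3, ← mul_div_assoc]
    exact div_le_div_of_nonneg_right h5 h3.le
  have h9 := (abs_lt.1 hA').2
  set P := (EP (nm K) ε fun v => ∑ j ∈ S, c j * (T v ^ e j * RR χ 0 σ v)) / lam ε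
  have h11 := abs_sub_abs_le_abs_sub (∑ j ∈ S, c j * x j ε) P
  rw [abs_sub_comm] at h11
  linarith

end

/-! ### The polynomials `t ^ r (1 - (t / N) ^ q) ^ m` -/

lemma bern {u : ℝ} (h0 : 0 ≤ u) (h1 : u ≤ 1) (M : ℕ) : u * (1 - u) ^ M ≤ 1 / (M + 1 : ℝ) := by
  have h2 : (1 - u) ^ M * (1 + M * u) ≤ 1 := by
    have h3 : 1 + (M : ℝ) * u ≤ (1 + u) ^ M := one_add_mul_le_pow (by linarith) M
    calc (1 - u) ^ M * (1 + M * u) ≤ (1 - u) ^ M * (1 + u) ^ M :=
          mul_le_mul_of_nonneg_left h3 (pow_nonneg (by linarith) _)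
      _ = (1 - u ^ 2) ^ M := by rw [← mul_pow]; ring
      _ ≤ 1 := pow_le_one₀ (by nlinarith) (by nlinarith)
  have h4 : (0 : ℝ) < 1 + M * u := by positivity
  have h5 : (1 - u) ^ M ≤ 1 / (1 + M * u) := by
    rw [le_div_iff₀ h4]
    exact h2
  have h6 : (0 : ℝ) < (M : ℝ) + 1 := by positivity
  calc u * (1 - u) ^ M ≤ u * (1 / (1 + M * u)) := mul_le_mul_of_nonneg_left h5 h0
    _ ≤ 1 / (M + 1) := by
      rw [mul_one_div, div_le_div_iff₀ h4 h6]
      nlinarith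

/-- the bound for `t ^ r (1 - (t / N) ^ q) ^ m`, raised to the power `q` -/
lemma pw {r q m : ℕ} (hq : Even q) {N t : ℝ} (hN : 0 < N) (ht : |t| ≤ N) :
    |t ^ r * (1 - (t / N) ^ q) ^ m| ^ q ≤ (N ^ r) ^ q / ((q * m / r : ℕ) + 1 : ℝ) ^ r := by
  set u : ℝ := (|t| / N) ^ q with hu
  have ht0 : 0 ≤ |t| / N := div_nonneg (abs_nonneg _) hN.le
  have ht1 : |t| / N ≤ 1 := by rw [div_le_one hN]; exact ht
  have hu0 : 0 ≤ u := pow_nonneg ht0 _
  have hu1 : u ≤ 1 := pow_le_one₀ ht0 ht1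
  have he : (t / N) ^ q = u := by
    rw [hu, div_pow, div_pow, hq.pow_abs]
  rw [he, abs_mul, abs_pow, abs_of_nonneg (pow_nonneg (by linarith : (0:ℝ) ≤ 1 - u) m), mul_pow]
  set M : ℕ := q * m / r with hM
  have h1 : (|t| ^ r) ^ q = (N ^ r) ^ q * u ^ r := by
    have : |t| = N * (|t| / N) := by field_simp
    rw [hu]
    conv_lhs => rw [this]
    rw [mul_pow, mul_pow, ← pow_mul (|t| / N), ← pow_mul (|t| / N), mul_comm r q]
  have h2 : ((1 - u) ^ m) ^ q ≤ ((1 - u) ^ M) ^ r := by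
    rw [← pow_mul, ← pow_mul]
    refine pow_le_pow_of_le_one (by linarith) (by linarith) ?_
    have := Nat.div_mul_le_self (q * m) r
    rw [hM]
    nlinarith
  have h3 : (u * (1 - u) ^ M) ^ r ≤ (1 / (M + 1 : ℝ)) ^ r :=
    pow_le_pow_left₀ (mul_nonneg hu0 (pow_nonneg (by linarith) _)) (bern hu0 hu1 M) r
  rw [h1]
  calc (N ^ r) ^ q * u ^ r * ((1 - u) ^ m) ^ q ≤ (N ^ r) ^ q * u ^ r * ((1 - u) ^ M) ^ r :=
        mul_le_mul_of_nonneg_left h2 (by positivity)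
    _ = (N ^ r) ^ q * (u * (1 - u) ^ M) ^ r := by rw [mul_pow]; ring
    _ ≤ (N ^ r) ^ q * (1 / (M + 1 : ℝ)) ^ r := mul_le_mul_of_nonneg_left h3 (by positivity)
    _ = _ := by rw [one_div, inv_pow, div_eq_mul_inv]

lemma expand {r q m : ℕ} {N t : ℝ} :
    ∑ j ∈ Finset.range (m + 1), ((-1) ^ j * (m.choose j : ℝ) / N ^ (q * j)) * t ^ (r + q * j) =
      t ^ r * (1 - (t / N) ^ q) ^ m := by
  have h1 : (1 - (t / N) ^ q) ^ m = (-((t / N) ^ q) + 1) ^ m := by ring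
  rw [h1, add_pow, Finset.mul_sum]
  refine Finset.sum_congr rfl fun j _ => ?_
  rw [one_pow, mul_one, neg_pow ((t / N) ^ q) j, div_pow, div_pow, pow_add, pow_mul, pow_mul]
  ring

end Pool.Agent.V1213.TP
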