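import Pool.Agent.V1213.TP.Core

/-!
Tensor powers of the cohomology: arithmetic progressions of exponents; the moment sequence of the orders.
-/

set_option autoImplicit false

namespace Pool.Agent.V1213.TP

open Complex Filter Topology ComplexConjugate NumberField IsDedekindDomain Asymptotics
  Pool.Agent.W401.Cheb Pool.Agent.W540.BE Pool.Agent.W353.L1 Polynomial
open Pool.Agent.H341R2 (lam lam_tendsto)
open Pool.Agent.W353.PV (tF)
open Pool.Agent.W353.EF (LFun)
open Pool.Agent.W353.EH (edgePoint size HasOrder)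
open Pool.Agent.W353.AT (IsArtin exists_common)
open Pool.Agent.Y139.SM

section
variable {K : Type} [Field K] [NumberField K] {l : ℕ} {X : Set (MvPolynomial (Fin l) (𝓞 K))}
  {d i N : ℕ}

/-- the inequality for an arithmetic progression of exponents -/
theorem prog_size (hi : i ≤ 2 * d) {n : ℕ} (χ : Representation ℂ (GK K) (Fin n → ℂ))
    (hχ : IsArtin χ) {r q : ℕ} (hq : Even q) (hq1 : 1 ≤ q) (hN : 1 ≤ N)
    (B : ℕ → HeightOneSpectrum (𝓞 K) → ℂ[X]) (m : ℕ)
    (hB : ∀ j ≤ m, IsPowerSystem X d i N (r + q * j) χ (B j)) {η : ℝ} (hη : 0 < η) :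
    ∀ᶠ ε : ℝ in 𝓝[>] 0,
      |∑ j ∈ Finset.range (m + 1), ((-1) ^ j * (m.choose j : ℝ) / (N : ℝ) ^ (q * j)) *
        size ((r + q * j) * i) 0 (B j) ε| ^ q ≤
        (n * (N : ℝ) ^ r) ^ q / ((q * m / r : ℕ) + 1 : ℝ) ^ r + η := by
  classical
  choose σ hσ using exists_isFrob (F := K)
  set A : ℝ := (n * (N : ℝ) ^ r) ^ q / ((q * m / r : ℕ) + 1 : ℝ) ^ r with hA
  have hA0 : 0 ≤ A := by positivity
  have hq0 : q ≠ 0 := by omega
  set b : ℝ := A ^ ((q : ℝ)⁻¹) with hb
  have hb0 : 0 ≤ b := Real.rpow_nonneg hA0 _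
  have hbq : b ^ q = A := Real.rpow_inv_natCast_pow hA0 hq0
  have hN0 : (0 : ℝ) < N := by exact_mod_cast hN
  have hbt : ∀ t : ℝ, |t| ≤ N → n * |∑ j ∈ Finset.range (m + 1),
      ((-1) ^ j * (m.choose j : ℝ) / (N : ℝ) ^ (q * j)) * t ^ (r + q * j)| ≤ b := by
    intro t ht
    rw [expand]
    have h1 := pw (r := r) (m := m) hq hN0 ht
    refine le_of_pow_le_pow_left₀ hq0 hb0 ?_
    rw [hbq, mul_pow, hA, mul_pow]
    calc (n : ℝ) ^ q * |t ^ r * (1 - (t / N) ^ q) ^ m| ^ q ≤
        (n : ℝ) ^ q * (((N : ℝ) ^ r) ^ q / ((q * m / r : ℕ) + 1 : ℝ) ^ r) :=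
          mul_le_mul_of_nonneg_left h1 (by positivity)
      _ = _ := by rw [mul_div_assoc]
  -- continuity of the power
  have hc : Tendsto (fun δ : ℝ => (b + δ) ^ q) (𝓝 0) (𝓝 ((b + 0) ^ q)) :=
    (((continuous_const.add continuous_id).pow q).tendsto 0)
  rw [add_zero, hbq] at hc
  have h2 : ∀ᶠ δ : ℝ in 𝓝 0, (b + δ) ^ q < A + η := hc.eventually_lt_const (by linarith)
  obtain ⟨δ₀, hδ₀, h3⟩ := Metric.eventually_nhds_iff.1 h2
  have h4 := h3 (y := δ₀ / 2) (by rw [Real.dist_eq, sub_zero, abs_of_pos (by linarith)]; linarith)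
  have h5 := core (T := tF X d i N K) (Nat.cast_nonneg N) (fun v => abs_tr_le _ _ _) σ χ hχ
    (Finset.range (m + 1)) (fun j => r + q * j)
    (fun j => (-1) ^ j * (m.choose j : ℝ) / (N : ℝ) ^ (q * j))
    (fun j => size ((r + q * j) * i) 0 (B j))
    (fun j hj => (power_size hi hσ (r + q * j) χ hχ (B j) (hB j (by
      rw [Finset.mem_range] at hj; omega))).2) hb0 hbt (η := δ₀ / 2) (by linarith)
  filter_upwards [h5] with ε h6
  exact (pow_le_pow_left₀ (abs_nonneg _) h6 q).trans h4.le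

/-- orders: the inequality in the limit -/
theorem prog_orders (hi : i ≤ 2 * d) {n : ℕ} (χ : Representation ℂ (GK K) (Fin n → ℂ))
    (hχ : IsArtin χ) {r q : ℕ} (hq : Even q) (hq1 : 1 ≤ q) (hN : 1 ≤ N)
    (B : ℕ → HeightOneSpectrum (𝓞 K) → ℂ[X]) (m : ℕ)
    (hB : ∀ j ≤ m, IsPowerSystem X d i N (r + q * j) χ (B j)) (k : ℕ → ℤ)
    (hk : ∀ j ≤ m, HasOrder ((r + q * j) * i) 0 (B j) (k j)) :
      |∑ j ∈ Finset.range (m + 1), ((-1) ^ j * (m.choose j : ℝ) / (N : ℝ) ^ (q * j)) * k j| ^ q ≤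
        (n * (N : ℝ) ^ r) ^ q / ((q * m / r : ℕ) + 1 : ℝ) ^ r := by
  classical
  choose σ hσ using exists_isFrob (F := K)
  have h1 : Tendsto (fun ε : ℝ => |∑ j ∈ Finset.range (m + 1),
      ((-1) ^ j * (m.choose j : ℝ) / (N : ℝ) ^ (q * j)) * size ((r + q * j) * i) 0 (B j) ε| ^ q)
      (𝓝[>] 0) (𝓝 (|∑ j ∈ Finset.range (m + 1),
      ((-1) ^ j * (m.choose j : ℝ) / (N : ℝ) ^ (q * j)) * (-(k j : ℝ))| ^ q)) := by
    refine (Tendsto.abs ?_).pow q
    refine tendsto_finsetSum _ fun j hj => Tendsto.const_mul _ ?_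
    have hj' : j ≤ m := by rw [Finset.mem_range] at hj; omega
    exact size_of_order (power_size hi hσ (r + q * j) χ hχ (B j) (hB j hj')).1 (hk j hj')
  have h2 : ∑ j ∈ Finset.range (m + 1), ((-1) ^ j * (m.choose j : ℝ) / (N : ℝ) ^ (q * j)) *
      (-(k j : ℝ)) = -∑ j ∈ Finset.range (m + 1),
      ((-1) ^ j * (m.choose j : ℝ) / (N : ℝ) ^ (q * j)) * k j := by
    rw [← Finset.sum_neg_distrib]
    exact Finset.sum_congr rfl fun j _ => by ring
  rw [h2, abs_neg] at h1
  refine le_of_forall_pos_le_add fun η hη => ?_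
  exact le_of_tendsto h1 (prog_size hi χ hχ hq hq1 hN B m hB hη)

/-- if the orders vanish along a progression, the order at its start vanishes -/
theorem prog_zero (hi : i ≤ 2 * d) {n : ℕ} (χ : Representation ℂ (GK K) (Fin n → ℂ))
    (hχ : IsArtin χ) {r q : ℕ} (hr : 1 ≤ r) (hq : Even q) (hq1 : 1 ≤ q)
    (B : ℕ → HeightOneSpectrum (𝓞 K) → ℂ[X]) (m : ℕ)
    (hm : (n * N ^ r) ^ q < (q * m / r + 1) ^ r)
    (hB : ∀ j ≤ m, IsPowerSystem X d i N (r + q * j) χ (B j))
    (h0 : ∀ j, 1 ≤ j → j ≤ m → HasOrder ((r + q * j) * i) 0 (B j) 0) (k : ℤ)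
    (hk : HasOrder (r * i) 0 (B 0) k) : k = 0 := by
  classical
  rcases Nat.eq_zero_or_pos N with hN | hN
  · -- all sizes tend to zero
    choose σ hσ using exists_isFrob (F := K)
    have hB0 : IsPowerSystem X d i N r χ (B 0) := by
      have := hB 0 (Nat.zero_le _)
      simpa using this
    have h1 := (power_size hi hσ r χ hχ (B 0) hB0)
    have h2 : ∀ v, tF X d i N K v = 0 := fun v => by
      have h3 : |tF X d i N K v| ≤ (N : ℝ) := abs_tr_le _ _ _
      have h3' : (N : ℝ) = 0 := by rw [hN, Nat.cast_zero]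
      exact abs_eq_zero.1 (le_antisymm (h3.trans h3'.le) (abs_nonneg _))
    have h4 : ∀ ε : ℝ, (EP (nm K) ε fun v => tF X d i N K v ^ r * RR χ 0 σ v) = 0 := by
      intro ε
      simp only [h2]
      rw [zero_pow (by omega)]
      unfold EP
      simp
    have h5 := h1.2
    simp only [h4, zero_div, zero_sub] at h5
    have h6 := (size_of_order h1.1 hk).neg
    have h7 := tendsto_nhds_unique h5 h6
    rw [neg_neg] at h7
    exact_mod_cast h7.symm
  · set kk : ℕ → ℤ := fun j => if j = 0 then k else 0 with hkk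
    have h1 := prog_orders hi χ hχ hq hq1 hN B m hB kk (by
      intro j hj
      rcases Nat.eq_zero_or_pos j with h | h
      · subst h
        simpa [hkk] using hk
      · have : kk j = 0 := by rw [hkk]; simp; omega
        rw [this]
        exact h0 j h hj)
    have h2 : ∑ j ∈ Finset.range (m + 1), ((-1) ^ j * (m.choose j : ℝ) / (N : ℝ) ^ (q * j)) * kk j =
        (k : ℝ) := by
      rw [Finset.sum_eq_single 0]
      · simp [hkk]
      · intro j _ hj
        have : kk j = 0 := by rw [hkk]; simp [hj]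
        rw [this]
        simp
      · intro h
        exact absurd (Finset.mem_range.2 (Nat.succ_pos m)) h
    rw [h2] at h1
    have hM : (0 : ℝ) < ((q * m / r : ℕ) + 1 : ℝ) ^ r := by positivity
    have h3 : (n * (N : ℝ) ^ r) ^ q < ((q * m / r : ℕ) + 1 : ℝ) ^ r := by exact_mod_cast hm
    have h4 : |(k : ℝ)| ^ q < 1 := h1.trans_lt (by rw [div_lt_one hM]; exact h3)
    have h5 : |(k : ℝ)| < 1 := by
      by_contra hcon
      exact absurd h4 (not_lt.2 (one_le_pow₀ (not_lt.1 hcon)))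
    rw [← Int.cast_abs] at h5
    exact Int.abs_lt_one_iff.1 (by exact_mod_cast h5)

/-- a zero or pole at the edge propagates along all progressions with even difference -/
theorem prog_infinite (hi : i ≤ 2 * d) {n : ℕ} (χ : Representation ℂ (GK K) (Fin n → ℂ))
    (hχ : IsArtin χ) {r q : ℕ} (hr : 1 ≤ r) (hq : Even q) (hq1 : 1 ≤ q)
    (B : ℕ → HeightOneSpectrum (𝓞 K) → ℂ[X])
    (hB : ∀ j, IsPowerSystem X d i N (r + q * j) χ (B j)) (k : ℤ) (hk0 : k ≠ 0)
    (hk : HasOrder (r * i) 0 (B 0) k) :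
    {j : ℕ | 1 ≤ j ∧ ¬ HasOrder ((r + q * j) * i) 0 (B j) 0}.Infinite := by
  classical
  intro hfin
  apply hk0
  obtain ⟨J, hJ⟩ : ∃ J : ℕ, ∀ j : ℕ, J ≤ j → 1 ≤ j → HasOrder ((r + q * j) * i) 0 (B j) 0 := by
    obtain ⟨b, hb⟩ := hfin.bddAbove
    refine ⟨b + 1, fun j hj hj1 => ?_⟩
    by_contra hcon
    have := hb ⟨hj1, hcon⟩
    omega
  -- the progression with difference `q (J + 1)`
  set Q : ℕ := q * (J + 1) with hQ
  have hQe : Even Q := hq.mul_right _
  have hQ1 : 1 ≤ Q := Nat.mul_pos hq1 (Nat.succ_pos J)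
  set m : ℕ := r * (n * N ^ r) ^ Q with hm
  refine prog_zero (X := X) (N := N) hi χ hχ hr hQe hQ1 (fun j => B ((J + 1) * j)) m ?_ ?_ ?_ k (by simpa using hk)
  · have h1 : Q * m / r = Q * (n * N ^ r) ^ Q := by
      rw [hm]
      rw [show Q * (r * (n * N ^ r) ^ Q) = r * (Q * (n * N ^ r) ^ Q) by ring]
      exact Nat.mul_div_cancel_left _ (by omega)
    rw [h1]
    calc (n * N ^ r) ^ Q < Q * (n * N ^ r) ^ Q + 1 := by nlinarith [Nat.zero_le ((n * N ^ r) ^ Q)]
      _ = (Q * (n * N ^ r) ^ Q + 1) ^ 1 := (pow_one _).symm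
      _ ≤ (Q * (n * N ^ r) ^ Q + 1) ^ r := Nat.pow_le_pow_right (by omega) hr
  · intro j _
    have := hB ((J + 1) * j)
    rw [show r + q * ((J + 1) * j) = r + Q * j by rw [hQ]; ring] at this
    exact this
  · intro j hj _
    have h1 : J + 1 ≤ (J + 1) * j := by nlinarith
    have := hJ ((J + 1) * j) (by omega) (by omega)
    rw [show r + q * ((J + 1) * j) = r + Q * j by rw [hQ]; ring] at this
    exact this

/-- **the orders are (up to the sign) a moment sequence on `[-N, N]`** -/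
theorem moments (hi : i ≤ 2 * d) (R : ℕ) (B : ℕ → HeightOneSpectrum (𝓞 K) → ℂ[X])
    (hB : ∀ r, 1 ≤ r → r ≤ R →
      IsPowerSystem X d i N r (1 : Representation ℂ (GK K) (Fin 1 → ℂ)) (B r))
    (k : ℕ → ℤ) (hk : ∀ r, 1 ≤ r → r ≤ R → HasOrder (r * i) 0 (B r) (k r)) (P : ℝ[X])
    (hP : P.natDegree ≤ R) (hpos : ∀ t : ℝ, |t| ≤ N → 0 ≤ P.eval t) :
    0 ≤ P.coeff 0 - ∑ r ∈ Finset.Icc 1 R, P.coeff r * k r := by
  classical
  choose σ hσ using exists_isFrob (F := K)
  set x : Fin (R + 1) → ℝ → ℝ := fun r ε => if (r : ℕ) = 0 then 1 else size ((r : ℕ) * i) 0 (B r) ε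
    with hx
  have hRR : ∀ v, RR (1 : Representation ℂ (GK K) (Fin 1 → ℂ)) 0 σ v = 1 := RR_one σ
  have hlim : ∀ r : Fin (R + 1), Tendsto (fun ε : ℝ =>
      (EP (nm K) ε fun v => (tF X d i N K v) ^ (r : ℕ) *
        RR (1 : Representation ℂ (GK K) (Fin 1 → ℂ)) 0 σ v) / lam ε - x r ε) (𝓝[>] 0) (𝓝 0) := by
    intro r
    by_cases h : (r : ℕ) = 0
    · have h1 : ∀ ε, x r ε = 1 := fun ε => by rw [hx]; simp only [h, if_true]
      simp only [h1, h, pow_zero, hRR, mul_one]
      have := (EP_one K).sub_const 1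
      rwa [sub_self] at this
    · have h1 : ∀ ε, x r ε = size ((r : ℕ) * i) 0 (B r) ε := fun ε => by
        rw [hx]; simp only [h, if_false]
      simp only [h1]
      exact (power_size hi hσ r _ one_artin (B r) (hB r (by omega) (by omega))).2
  have hev : ∀ η : ℝ, 0 < η → ∀ᶠ ε : ℝ in 𝓝[>] 0, -η ≤ ∑ r : Fin (R + 1), P.coeff r * x r ε := by
    intro η hη
    refine lin_pos (T := tF X d i N K) (Nat.cast_nonneg N) (fun v => abs_tr_le _ _ _) σ
      (fun r : Fin (R + 1) => (r : ℕ)) (fun _ => 1) (fun _ => 1) (fun _ => one_artin) x hlim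
      (fun r => P.coeff r) ?_ hη
    intro t ht g
    have h1 : ((1 : Representation ℂ (GK K) (Fin 1 → ℂ)).character g).re = 1 := by
      have : (1 : Representation ℂ (GK K) (Fin 1 → ℂ)).character g = 1 := by
        unfold Representation.character
        simp
      rw [this]; simp
    have h2 : ∑ r : Fin (R + 1), P.coeff r * (t ^ (r : ℕ) *
        ((1 : Representation ℂ (GK K) (Fin 1 → ℂ)).character g).re) = P.eval t := by
      rw [eval_eq_sum_range' (n := R + 1) (by omega),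
        ← Fin.sum_univ_eq_sum_range (fun r => P.coeff r * t ^ r)]
      refine Finset.sum_congr rfl fun r _ => ?_
      rw [h1, mul_one]
    rw [h2]
    exact hpos t ht
  have hx1 : Tendsto (fun ε => ∑ r : Fin (R + 1), P.coeff r * x r ε) (𝓝[>] 0)
      (𝓝 (∑ r : Fin (R + 1), P.coeff r * (if (r : ℕ) = 0 then 1 else -(k r : ℝ)))) := by
    refine tendsto_finsetSum _ fun r _ => Tendsto.const_mul _ ?_
    by_cases h : (r : ℕ) = 0
    · have h1 : x r = fun _ => 1 := by
        funext ε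
        rw [hx]; simp only [h, if_true]
      rw [h1, if_pos h]
      exact tendsto_const_nhds
    · have h1 : x r = size ((r : ℕ) * i) 0 (B r) := by
        funext ε
        rw [hx]; simp only [h, if_false]
      rw [h1, if_neg h]
      exact size_of_order (power_size hi hσ r _ one_artin (B r) (hB r (by omega) (by omega))).1
        (hk r (by omega) (by omega))
  have h3 : 0 ≤ ∑ r : Fin (R + 1), P.coeff r * (if (r : ℕ) = 0 then 1 else -(k r : ℝ)) := by
    refine le_of_forall_pos_le_add fun η hη => ?_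
    have := ge_of_tendsto hx1 (hev η hη)
    linarith
  have h4 : ∑ r : Fin (R + 1), P.coeff r * (if (r : ℕ) = 0 then 1 else -(k r : ℝ)) =
      P.coeff 0 - ∑ r ∈ Finset.Icc 1 R, P.coeff r * k r := by
    rw [Fin.sum_univ_eq_sum_range (fun r => P.coeff r * (if r = 0 then 1 else -(k r : ℝ))),
      Finset.sum_range_succ']
    simp only [if_true, mul_one, Nat.succ_ne_zero, if_false]
    have h5 : ∑ r ∈ Finset.Icc 1 R, P.coeff r * (k r : ℝ) =
        ∑ r ∈ Finset.range R, P.coeff (r + 1) * (k (r + 1) : ℝ) := by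
      rw [Finset.sum_bij (fun (r : ℕ) (_ : r ∈ Finset.Icc 1 R) => r - 1)]
      · intro r hr
        rw [Finset.mem_Icc] at hr
        rw [Finset.mem_range]; omega
      · intro a ha b hb hab
        rw [Finset.mem_Icc] at ha hb
        omega
      · intro b hb
        rw [Finset.mem_range] at hb
        exact ⟨b + 1, by rw [Finset.mem_Icc]; omega, by omega⟩
      · intro a ha
        rw [Finset.mem_Icc] at ha
        rw [Nat.sub_add_cancel ha.1]
    rw [h5]
    have h6 : ∑ r ∈ Finset.range R, P.coeff (r + 1) * (-(k (r + 1) : ℝ)) =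
        -∑ r ∈ Finset.range R, P.coeff (r + 1) * (k (r + 1) : ℝ) := by
      rw [← Finset.sum_neg_distrib]
      exact Finset.sum_congr rfl fun r _ => by ring
    rw [h6]
    ring
  rw [← h4]
  exact h3

end

end Pool.Agent.V1213.TP
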